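import Pool.Agent.Helper81.EMC.Goals

/-! Packet TELE -/

set_option autoImplicit false

namespace Pool.Agent.Helper31.EMC

open Helper81.EMC Finset

lemma prod_erase' {n : ℕ} (i : Fin (n + 1)) (g : Fin (n + 1) → ℝ) :
    ∏ j ∈ univ.erase i, g j = ∏ j : Fin n, g (i.succAbove j) := by
  rw [← Finset.compl_singleton, ← Fin.image_succAbove_univ,
    Finset.prod_image (fun a _ b _ h => Fin.succAbove_right_injective h)]

theorem tele : stmtTele := by
  intro n a x α β
  have hd : ∀ s : ℝ, HasDerivAt (fun s : ℝ => ∏ i, (1 - s * (x i - a)))
      (∑ i, -((x i - a) * GG a (fun j => x (i.succAbove j)) s)) s := by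
    intro s
    have h1 : ∀ i ∈ (univ : Finset (Fin (n + 1))), HasDerivAt (fun s : ℝ => 1 - s * (x i - a))
        (-(x i - a)) s := by
      intro i _
      have := ((hasDerivAt_id s).mul_const (x i - a)).const_sub 1
      simpa using this
    have h2 := HasDerivAt.fun_finsetProd h1
    have e : (∑ i, -((x i - a) * GG a (fun j => x (i.succAbove j)) s)) =
        ∑ i, (∏ j ∈ univ.erase i, (1 - s * (x j - a))) • -(x i - a) := by
      apply Finset.sum_congr rfl
      intro i _
      rw [prod_erase', smul_eq_mul]
      unfold GG
      ring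
    rw [e]
    exact h2
  have hc : Continuous fun s : ℝ => ∑ i, -((x i - a) * GG a (fun j => x (i.succAbove j)) s) := by
    unfold GG
    fun_prop
  have h3 := intervalIntegral.integral_eq_sub_of_hasDerivAt (a := α) (b := β) (fun s _ => hd s)
    (hc.intervalIntegrable α β)
  have h4 : ∫ s in α..β, ∑ i, -((x i - a) * GG a (fun j => x (i.succAbove j)) s) =
      - ∑ i, (x i - a) * ∫ σ in α..β, GG a (fun j => x (i.succAbove j)) σ := by
    rw [intervalIntegral.integral_finsetSum]
    · rw [← Finset.sum_neg_distrib]
      refine Finset.sum_congr rfl fun i _ => ?_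
      rw [intervalIntegral.integral_neg, intervalIntegral.integral_const_mul]
    · intro i _
      have : Continuous fun s : ℝ => -((x i - a) * GG a (fun j => x (i.succAbove j)) s) := by
        unfold GG
        fun_prop
      exact this.intervalIntegrable α β
  rw [h4] at h3
  linarith

end Pool.Agent.Helper31.EMC
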